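import Pool.Agent.H91.HBE.Tools

/-!
# Row MEM of `hbe_modules`
-/

set_option autoImplicit false

namespace Pool.Agent.H91.HBE
open MeasureTheory Set Filter Topology Pool.Agent.H80.HS Pool.Agent.H93.HQ Pool.Agent.H27.HB
open scoped ContDiff ENNReal

theorem pf_MEM (hCAL : T_CAL) (hBND : T_BND) (hWIN : T_WIN) (hCUT : T_CUT) (hHGC : T_HGC)
    (_hHGA : T_HGA) : T_MEM := by
  intro n hn α β a b hα hβ
  obtain ⟨hsm, -⟩ := hCAL n hn α β a b hα hβ
  obtain ⟨C, hC, hb⟩ := hBND n hn α β a b hα hβ
  have hn0 : (1 : ℝ) ≤ n := by exact_mod_cast hn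
  have hdf : ∀ z, DifferentiableAt ℝ (EE α β a b) z := fun z =>
    (hsm.differentiable (by simp)).differentiableAt
  have hre : ContDiff ℝ ∞ fun z => (EE α β a b z).re := Complex.reCLM.contDiff.comp hsm
  have him : ContDiff ℝ ∞ fun z => (EE α β a b z).im := Complex.imCLM.contDiff.comp hsm
  constructor
  · refine hCUT n hn 2 one_lt_two (by linarith) _ hre ?_ ?_
    · exact memLp_of_le_u0 hWIN hn hre.continuous.aestronglyMeasurable hC fun z =>
        (Complex.abs_re_le_norm _).trans (hb z).1
    · exact memLp_two_of_le hWIN hn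
        (((hHGC n _).1 (hre.of_le (by simp))).aestronglyMeasurable) fun z =>
        (norm_hg_re_sq_le (hdf z)).trans (hb z).2.2
  · refine hCUT n hn 2 one_lt_two (by linarith) _ him ?_ ?_
    · exact memLp_of_le_u0 hWIN hn him.continuous.aestronglyMeasurable hC fun z =>
        (Complex.abs_im_le_norm _).trans (hb z).1
    · exact memLp_two_of_le hWIN hn
        (((hHGC n _).1 (him.of_le (by simp))).aestronglyMeasurable) fun z =>
        (norm_hg_im_sq_le (hdf z)).trans (hb z).2.2

end Pool.Agent.H91.HBE
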