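import Pool.Agent.H91.HBE.Tools

/-!
# Row SV2 of `hbe_modules`
-/

set_option autoImplicit false

namespace Pool.Agent.H91.HBE
open MeasureTheory Set Filter Topology Pool.Agent.H80.HS Pool.Agent.H93.HQ Pool.Agent.H27.HB
open scoped ContDiff ENNReal

variable {n : ℕ}

lemma nonneg_of_deriv {F F' : ℝ → ℝ} {b : ℝ} (h1 : ∀ x ∈ Icc 0 b, HasDerivAt F (F' x) x)
    (h0 : F 0 = 0) (hp : ∀ x ∈ Icc 0 b, 0 ≤ F' x) : ∀ x ∈ Icc 0 b, 0 ≤ F x := by
  intro x hx
  have hm : MonotoneOn F (Icc 0 b) := by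
    refine monotoneOn_of_deriv_nonneg (convex_Icc 0 b)
      (fun y hy => (h1 y hy).continuousAt.continuousWithinAt)
      (fun y hy => ?_) (fun y hy => ?_)
    · exact (h1 y (interior_subset hy)).differentiableAt.differentiableWithinAt
    · rw [(h1 y (interior_subset hy)).deriv]
      exact hp y (interior_subset hy)
  have := hm (left_mem_Icc.2 (hx.1.trans hx.2)) hx hx.1
  rwa [h0] at this

/-- Lower Taylor bound, on the right. -/
lemma pow_right {q : ℝ} (hq : 2 ≤ q) {x : ℝ} (hx : 0 ≤ x) :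
    1 + q * x + q * (q - 1) / 2 * x ^ 2 ≤ (1 + x) ^ q := by
  have key : ∀ y ∈ Icc 0 x, 0 ≤ (1 + y) ^ (q - 1) - 1 - (q - 1) * y := by
    intro y hy
    have := one_add_mul_self_le_rpow_one_add (s := y) (p := q - 1) (by linarith [hy.1])
      (by linarith)
    linarith
  have h2 : ∀ y ∈ Icc 0 x, 0 ≤ (1 + y) ^ q - (1 + q * y + q * (q - 1) / 2 * y ^ 2) := by
    refine nonneg_of_deriv (F' := fun y => q * ((1 + y) ^ (q - 1) - 1 - (q - 1) * y)) ?_ ?_ ?_
    · intro y hy
      have hy0 : (1 + y) ≠ 0 := by linarith [hy.1]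
      have e1 : HasDerivAt (fun y : ℝ => (1 + y) ^ q) (1 * q * (1 + y) ^ (q - 1)) y :=
        ((hasDerivAt_id y).const_add 1).rpow_const (Or.inl hy0)
      have e2 : HasDerivAt (fun y : ℝ => 1 + q * y + q * (q - 1) / 2 * y ^ 2)
          (q + q * (q - 1) / 2 * (2 * y)) y := by
        have e3 : HasDerivAt (fun y : ℝ => 1 + q * y) q y := by
          simpa using ((hasDerivAt_id y).const_mul q).const_add 1
        have e4 : HasDerivAt (fun y : ℝ => q * (q - 1) / 2 * y ^ 2)
            (q * (q - 1) / 2 * (2 * y)) y := by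
          simpa using ((hasDerivAt_id y).pow 2).const_mul (q * (q - 1) / 2)
        exact e3.add e4
      refine (e1.sub e2).congr_deriv ?_
      ring
    · simp
    · intro y hy
      exact mul_nonneg (by linarith) (key y hy)
  have := h2 x ⟨hx, le_rfl⟩
  linarith

/-- Lower Taylor bound, on the left. -/
lemma pow_left {q : ℝ} (hq : 2 ≤ q) (hq4 : q ≤ 4) {x : ℝ} (hx : 0 ≤ x) (hx1 : x ≤ 1 / 2) :
    1 - q * x + q * (q - 1) / 2 * x ^ 2 - q * (q - 1) / 3 * x ^ 3 ≤ (1 - x) ^ q := by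
  have hI : ∀ y ∈ Icc 0 x, 0 < 1 - y := fun y hy => by linarith [hy.2]
  have e0 : ∀ (r : ℝ), ∀ y ∈ Icc 0 x, HasDerivAt (fun y : ℝ => (1 - y) ^ r)
      (-(r * (1 - y) ^ (r - 1))) y := by
    intro r y hy
    have := ((hasDerivAt_id y).const_sub 1).rpow_const (p := r) (Or.inl (hI y hy).ne')
    refine this.congr_deriv ?_
    simp
  have key : ∀ y ∈ Icc 0 x, 0 ≤ 1 - (1 - y) ^ (q - 1) - (q - 1) * y + (q - 1) * y ^ 2 := by
    refine nonneg_of_deriv (F' := fun y => (q - 1) * ((1 - y) ^ (q - 2) - 1 + 2 * y)) ?_ ?_ ?_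
    · intro y hy
      have e1 := e0 (q - 1) y hy
      have e2 : HasDerivAt (fun y : ℝ => (q - 1) * y) (q - 1) y := by
        simpa using (hasDerivAt_id y).const_mul (q - 1)
      have e3 : HasDerivAt (fun y : ℝ => (q - 1) * y ^ 2) ((q - 1) * (2 * y)) y := by
        simpa using ((hasDerivAt_id y).pow 2).const_mul (q - 1)
      have := ((e1.const_sub 1).sub e2).add e3
      refine this.congr_deriv ?_
      have : q - 1 - 1 = q - 2 := by ring
      rw [this]
      ring
    · simp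
    · intro y hy
      refine mul_nonneg (by linarith) ?_
      have h1 : (1 - y) ^ (2 : ℝ) ≤ (1 - y) ^ (q - 2) :=
        Real.rpow_le_rpow_of_exponent_ge (hI y hy) (by linarith [hy.1]) (by linarith)
      rw [Real.rpow_two] at h1
      nlinarith [sq_nonneg y]
  have h2 : ∀ y ∈ Icc 0 x, 0 ≤ (1 - y) ^ q -
      (1 - q * y + q * (q - 1) / 2 * y ^ 2 - q * (q - 1) / 3 * y ^ 3) := by
    refine nonneg_of_deriv (F' := fun y =>
      q * (1 - (1 - y) ^ (q - 1) - (q - 1) * y + (q - 1) * y ^ 2)) ?_ ?_ ?_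
    · intro y hy
      have e1 := e0 q y hy
      have e2 : HasDerivAt (fun y : ℝ => q * y) q y := by
        simpa using (hasDerivAt_id y).const_mul q
      have e3 : HasDerivAt (fun y : ℝ => q * (q - 1) / 2 * y ^ 2)
          (q * (q - 1) / 2 * (2 * y)) y := by
        simpa using ((hasDerivAt_id y).pow 2).const_mul (q * (q - 1) / 2)
      have e4 : HasDerivAt (fun y : ℝ => q * (q - 1) / 3 * y ^ 3)
          (q * (q - 1) / 3 * (3 * y ^ 2)) y := by
        simpa using ((hasDerivAt_id y).pow 3).const_mul (q * (q - 1) / 3)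
      have := e1.sub (((e2.const_sub 1).add e3).sub e4)
      refine this.congr_deriv ?_
      ring
    · simp
    · intro y hy
      exact mul_nonneg (by linarith) (key y hy)
  have := h2 x ⟨hx, le_rfl⟩
  linarith

/-- Lower Taylor bound. -/
lemma pow_taylor {q : ℝ} (hq : 2 ≤ q) (hq4 : q ≤ 4) {x : ℝ} (hx : |x| ≤ 1 / 2) :
    1 + q * x + q * (q - 1) / 2 * x ^ 2 - 4 * |x| ^ 3 ≤ (1 + x) ^ q := by
  rcases le_total 0 x with h | h
  · have := pow_right hq h
    have h3 : 0 ≤ |x| ^ 3 := by positivity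
    linarith
  · have h1 : 0 ≤ -x := by linarith
    have := pow_left hq hq4 h1 (by rwa [abs_of_nonpos h] at hx)
    rw [abs_of_nonpos h]
    have h3 : 0 ≤ (-x) ^ 3 := by positivity
    have h4 : q * (q - 1) / 3 * (-x) ^ 3 ≤ 4 * (-x) ^ 3 :=
      mul_le_mul_of_nonneg_right (by nlinarith) h3
    have h5 : (1 - -x) = 1 + x := by ring
    rw [h5] at this
    have h6 : (-x) ^ 2 = x ^ 2 := by ring
    rw [h6] at this
    linarith

/-- Lower bound for small powers. -/
lemma pow_small {θ : ℝ} (h0 : 0 ≤ θ) (h1 : θ ≤ 1) {y : ℝ} (hy : |y| ≤ 1 / 2) :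
    1 + θ * y - y ^ 2 ≤ (1 + y) ^ θ := by
  obtain ⟨hy1, hy2⟩ := abs_le.1 hy
  have hp : 0 < 1 + y := by linarith
  have hb := rpow_one_add_le_one_add_mul_self (s := y) (p := 1 - θ) (by linarith)
    (by linarith) (by linarith)
  have e : (1 + y) ^ θ * (1 + y) ^ (1 - θ) = 1 + y := by
    rw [← Real.rpow_add hp]; simp
  have hpos : 0 < (1 + y) ^ (1 - θ) := Real.rpow_pos_of_pos hp _
  have hpos2 : 0 < (1 + y) ^ θ := Real.rpow_pos_of_pos hp _
  have hD : 0 < 1 + (1 - θ) * y := lt_of_lt_of_le hpos hb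
  have h3 : 1 + y ≤ (1 + y) ^ θ * (1 + (1 - θ) * y) := by
    nlinarith
  have h4 : (1 + θ * y - y ^ 2) * (1 + (1 - θ) * y) ≤ 1 + y := by
    have h5 : θ * (1 - θ) ≤ 1 / 4 := by nlinarith [sq_nonneg (θ - 1 / 2)]
    have h6 : (1 / 2 : ℝ) ≤ 1 + (1 - θ) * y := by nlinarith
    have h7 : 0 ≤ y ^ 2 * (1 + (1 - θ) * y - θ * (1 - θ)) :=
      mul_nonneg (sq_nonneg y) (by linarith)
    nlinarith
  exact le_of_mul_le_mul_right (h4.trans h3) hD

theorem pf_SV2 (hCLA : T_CLA) (hSOB : T_SOB) : T_SV2 := by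
  intro n hn S hS u g hug χ h B hχm hχB hcl hmean
  obtain ⟨hu, hu1, hgS⟩ := hug
  have hn0 : (0 : ℝ) < n := by exact_mod_cast hn
  have hn1 : (1 : ℝ) ≤ n := by exact_mod_cast hn
  set q := ps n 2 with hqd
  have hq2 : 2 < q := two_lt_ps_two hn
  have hq4 : q ≤ 4 := by
    rw [hqd, ps_two hn]
    have : 2 / (n : ℝ) ≤ 2 := by
      rw [div_le_iff₀ hn0]; linarith
    linarith
  have hq0 : 0 < q := by linarith
  have hth : th n 2 = 2 / q := by
    rw [hqd]
    unfold th ps
    have : (2 * (n : ℝ) + 2 - 2) = 2 * n := by ring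
    rw [this]
    field_simp
  have hth0 : 0 ≤ th n 2 := by rw [hth]; positivity
  have hth1 : th n 2 ≤ 1 := by rw [hth, div_le_one hq0]; linarith
  have hB : 0 ≤ B := (abs_nonneg _).trans (hχB 0)
  -- integrability
  have iu : Integrable fun z => |u z| ^ q := by
    have := hu.1.integrable_norm_rpow (by simpa using hq0) ENNReal.ofReal_ne_top
    rwa [ENNReal.toReal_ofReal hq0.le] at this
  have iw : ∀ w : H n → ℝ, Measurable w → (∃ M, ∀ z, |w z| ≤ M) →
      Integrable fun z => |u z| ^ q * w z := fun w hw ⟨M, hM⟩ =>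
    iu.mul_bdd hw.aestronglyMeasurable (c := M) (ae_of_all _ hM)
  set I := ∫ z, |u z| ^ q * χ z ^ 2 with hI
  have hI0 : 0 ≤ I := integral_nonneg fun z => by positivity
  set P := ∫ z, inner ℝ (g z) (h z) with hP
  set E := en 2 h with hE
  set a := q * (q - 1) / 2 * I with ha
  set b := 4 * B ^ 3 with hb
  have ha0 : 0 ≤ a := mul_nonneg (by nlinarith) hI0
  have hb0 : 0 ≤ b := by positivity
  -- the energy
  have hen : ∀ s : ℝ, en 2 (fun z => (1 : ℝ) • g z + s • h z) = S + 2 * s * P + s ^ 2 * E := by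
    intro s
    have i1 : Integrable fun z => ‖g z‖ ^ (2 : ℝ) := by
      have := hu.2.1.integrable_norm_rpow (by simp) ENNReal.ofReal_ne_top
      rwa [ENNReal.toReal_ofReal zero_le_two] at this
    have i2 : Integrable fun z => ‖h z‖ ^ (2 : ℝ) := by
      have := hcl.2.1.integrable_norm_rpow (by simp) ENNReal.ofReal_ne_top
      rwa [ENNReal.toReal_ofReal zero_le_two] at this
    have i3 : Integrable fun z => inner ℝ (g z) (h z) :=
      integrable_inner_of_memLp Real.HolderConjugate.two_two hu.2.1 hcl.2.1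
    have e : ∀ z, ‖(1 : ℝ) • g z + s • h z‖ ^ (2 : ℝ) =
        ‖g z‖ ^ (2 : ℝ) + 2 * s * inner ℝ (g z) (h z) + s ^ 2 * ‖h z‖ ^ (2 : ℝ) := by
      intro z
      rw [one_smul, Real.rpow_two, Real.rpow_two, Real.rpow_two, norm_add_sq_real, norm_smul,
        inner_smul_right, mul_pow, Real.norm_eq_abs, sq_abs]
      ring
    unfold en
    have i13 : Integrable fun z => ‖g z‖ ^ (2 : ℝ) + 2 * s * inner ℝ (g z) (h z) :=
      i1.add (i3.const_mul _)
    rw [integral_congr_ae (ae_of_all _ e), integral_add i13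
      (i2.const_mul _), integral_add i1 (i3.const_mul _), integral_const_mul, integral_const_mul]
    have : ∫ z, ‖g z‖ ^ (2 : ℝ) = S := hgS
    rw [this, hP, hE]
    rfl
  -- the mass
  have hms : ∀ s : ℝ, |s| * B ≤ 1 / 2 →
      1 + (a * s ^ 2 - b * |s| ^ 3) ≤ ms q (fun z => 1 * u z + s * (χ z * u z)) := by
    intro s hs
    have hx : ∀ z, |s * χ z| ≤ 1 / 2 := fun z => by
      rw [abs_mul]
      exact (mul_le_mul_of_nonneg_left (hχB z) (abs_nonneg s)).trans hs
    have hpt : ∀ z, |u z| ^ q + q * s * (|u z| ^ q * χ z) +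
        q * (q - 1) / 2 * s ^ 2 * (|u z| ^ q * χ z ^ 2) - b * |s| ^ 3 * |u z| ^ q ≤
        |1 * u z + s * (χ z * u z)| ^ q := by
      intro z
      have h0 : 0 ≤ |u z| ^ q := Real.rpow_nonneg (abs_nonneg _) _
      have h1 : 1 * u z + s * (χ z * u z) = u z * (1 + s * χ z) := by ring
      have h2 : 0 ≤ 1 + s * χ z := by linarith [(abs_le.1 (hx z)).1]
      rw [h1, abs_mul, abs_of_nonneg h2, Real.mul_rpow (abs_nonneg _) h2]
      have h3 := pow_taylor hq2.le hq4 (hx z)
      have h4 : |s * χ z| ^ 3 ≤ |s| ^ 3 * B ^ 3 := by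
        rw [abs_mul, mul_pow]
        exact mul_le_mul_of_nonneg_left (pow_le_pow_left₀ (abs_nonneg _) (hχB z) 3)
          (by positivity)
      have h5 : 1 + q * (s * χ z) + q * (q - 1) / 2 * (s * χ z) ^ 2 - b * |s| ^ 3 ≤
          (1 + s * χ z) ^ q := by
        refine le_trans ?_ h3
        rw [hb]
        nlinarith
      have h6 := mul_le_mul_of_nonneg_left h5 h0
      refine le_trans (le_of_eq ?_) h6
      ring
    have j1 : Integrable fun z => |u z| ^ q * χ z := iw χ hχm ⟨B, hχB⟩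
    have j2 : Integrable fun z => |u z| ^ q * χ z ^ 2 := iw _ (hχm.pow_const 2) ⟨B ^ 2, fun z => by
      rw [abs_pow]; exact pow_le_pow_left₀ (abs_nonneg _) (hχB z) 2⟩
    have j3 : Integrable fun z => |1 * u z + s * (χ z * u z)| ^ q := by
      have h1 := (hCLA n hn 2 one_lt_two (by linarith) u (fun z => χ z * u z) g h 1 s hu hcl).1
      have := h1.integrable_norm_rpow (by simpa using hq0) ENNReal.ofReal_ne_top
      rwa [ENNReal.toReal_ofReal hq0.le] at this
    have k0 : Integrable fun z => |u z| ^ q + q * s * (|u z| ^ q * χ z) :=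
      iu.add (j1.const_mul (q * s))
    have k1 : Integrable fun z => |u z| ^ q + q * s * (|u z| ^ q * χ z) +
        q * (q - 1) / 2 * s ^ 2 * (|u z| ^ q * χ z ^ 2) :=
      k0.add (j2.const_mul (q * (q - 1) / 2 * s ^ 2))
    have k2 : Integrable fun z => |u z| ^ q + q * s * (|u z| ^ q * χ z) +
        q * (q - 1) / 2 * s ^ 2 * (|u z| ^ q * χ z ^ 2) - b * |s| ^ 3 * |u z| ^ q :=
      k1.sub (iu.const_mul (b * |s| ^ 3))
    have hm := integral_mono k2 j3 hpt
    refine le_trans (le_of_eq ?_) hm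
    have e1 : ∫ z, |u z| ^ q = 1 := hu1
    calc 1 + (a * s ^ 2 - b * |s| ^ 3)
        = ((∫ z, |u z| ^ q) + q * s * (∫ z, |u z| ^ q * χ z) +
          q * (q - 1) / 2 * s ^ 2 * I) - b * |s| ^ 3 * ∫ z, |u z| ^ q := by
          rw [e1, hmean, ha]; ring
      _ = _ := by
          rw [← integral_const_mul, hI, ← integral_const_mul, ← integral_const_mul,
            ← integral_add iu (j1.const_mul (q * s)),
            ← integral_add k0 (j2.const_mul (q * (q - 1) / 2 * s ^ 2)),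
            ← integral_sub k1 (iu.const_mul (b * |s| ^ 3))]
  -- the inequality for small `s`
  have hs : ∀ s : ℝ, |s| * B ≤ 1 / 2 → |a * s ^ 2 - b * |s| ^ 3| ≤ 1 / 2 →
      S * (1 + th n 2 * (a * s ^ 2 - b * |s| ^ 3) - (a * s ^ 2 - b * |s| ^ 3) ^ 2) ≤
        S + 2 * s * P + s ^ 2 * E := by
    intro s h1 h2
    have h3 := hSOB n hn 2 S one_lt_two (by linarith) hS _ _
      (hCLA n hn 2 one_lt_two (by linarith) u (fun z => χ z * u z) g h 1 s hu hcl)
    rw [hen s] at h3
    refine le_trans (mul_le_mul_of_nonneg_left ?_ hS.1.le) h3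
    have h4 := pow_small hth0 hth1 h2
    refine h4.trans ?_
    exact Real.rpow_le_rpow (by linarith [(abs_le.1 h2).1]) (hms s h1) hth0
  -- the limit
  have htha : th n 2 * a = (q - 1) * I := by
    rw [hth, ha]; field_simp
  have hev : ∀ᶠ s : ℝ in 𝓝[>] 0, S * (q - 1) * I - S * (th n 2 * b) * s -
      S * (a * s - b * s ^ 2) ^ 2 ≤ E := by
    have c1 : Tendsto (fun s : ℝ => |s| * B) (𝓝 0) (𝓝 (|0| * B)) :=
      (continuous_abs.mul continuous_const).tendsto 0
    have c2 : Tendsto (fun s : ℝ => |a * s ^ 2 - b * |s| ^ 3|) (𝓝 0)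
        (𝓝 (|a * 0 ^ 2 - b * |0| ^ 3|)) := by
      have : Continuous fun s : ℝ => |a * s ^ 2 - b * |s| ^ 3| := by fun_prop
      exact this.tendsto 0
    have d1 := c1.eventually_lt_const (u := (1 / 2 : ℝ)) (by norm_num)
    have d2 := c2.eventually_lt_const (u := (1 / 2 : ℝ)) (by norm_num)
    filter_upwards [nhdsWithin_le_nhds d1, nhdsWithin_le_nhds d2, self_mem_nhdsWithin]
      with s h1 h2 h3
    have hs0 : (0 : ℝ) < s := h3
    have r1 := hs s h1.le h2.le
    have r2 := hs (-s) (by rw [abs_neg]; exact h1.le) (by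
      rw [abs_neg s, neg_sq]; exact h2.le)
    rw [abs_neg s, neg_sq] at r2
    rw [abs_of_pos hs0] at r1 r2
    have r3 : S * (1 + th n 2 * (a * s ^ 2 - b * s ^ 3) - (a * s ^ 2 - b * s ^ 3) ^ 2) ≤
        S + s ^ 2 * E := by linarith
    have r4 : s ^ 2 * (S * (q - 1) * I - S * (th n 2 * b) * s - S * (a * s - b * s ^ 2) ^ 2) ≤
        s ^ 2 * E := by
      have e : s ^ 2 * (S * (q - 1) * I - S * (th n 2 * b) * s -
          S * (a * s - b * s ^ 2) ^ 2) =
          S * (1 + th n 2 * (a * s ^ 2 - b * s ^ 3) - (a * s ^ 2 - b * s ^ 3) ^ 2) - S := by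
        have : S * (q - 1) * I = S * (th n 2 * a) := by rw [htha]; ring
        rw [this]; ring
      rw [e]; linarith
    exact le_of_mul_le_mul_left r4 (by positivity)
  have hlim : Tendsto (fun s : ℝ => S * (q - 1) * I - S * (th n 2 * b) * s -
      S * (a * s - b * s ^ 2) ^ 2) (𝓝[>] 0) (𝓝 (S * (q - 1) * I)) := by
    have : Continuous fun s : ℝ => S * (q - 1) * I - S * (th n 2 * b) * s -
      S * (a * s - b * s ^ 2) ^ 2 := by fun_prop
    have h1 := this.tendsto 0
    have h2 : S * (q - 1) * I - S * (th n 2 * b) * 0 - S * (a * 0 - b * 0 ^ 2) ^ 2 =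
        S * (q - 1) * I := by ring
    rw [h2] at h1
    exact h1.mono_left nhdsWithin_le_nhds
  exact le_of_tendsto hlim hev

end Pool.Agent.H91.HBE
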