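import Pool.Agent.H91.HBE.Tools

/-!
# Row WKE of `hbe_modules`
-/

set_option autoImplicit false

namespace Pool.Agent.H91.HBE
open MeasureTheory Set Filter Topology Pool.Agent.H80.HS Pool.Agent.H93.HQ Pool.Agent.H27.HB
open scoped ContDiff ENNReal

variable {n : ℕ}

/-- The conjugate exponent of `2*`. -/
noncomputable def qc (n : ℕ) : ℝ := (2 * n + 2) / (n + 2)

lemma conj_qc (hn : 1 ≤ n) : (ps n 2).HolderConjugate (qc n) := by
  have hn0 : (0 : ℝ) < n := by exact_mod_cast hn
  have h : (ps n 2) = (2 * n + 2) / n := by rw [ps_two hn]; field_simp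
  rw [Real.holderConjugate_iff]
  refine ⟨by linarith [two_lt_ps_two hn], ?_⟩
  rw [h]
  unfold qc
  field_simp
  ring

/-- Functions bounded by a multiple of `u0`, divided by `w`. -/
lemma memLp_qc (hWIN : T_WIN) (hn : 1 ≤ n) {ψ : H n → ℝ}
    (hF : AEStronglyMeasurable ψ volume) {C : ℝ} (hC : 0 < C) (h : ∀ z, |ψ z| ≤ C * u0 n z) :
    MemLp (fun z => ψ z / ww z) (ENNReal.ofReal (qc n)) := by
  have hn0 : (0 : ℝ) < n := by exact_mod_cast hn
  have hq : 0 < qc n := by unfold qc; positivity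
  have hw := (hWIN n ((n : ℝ) + 1) (by linarith)).const_mul (C ^ qc n)
  have hm : AEStronglyMeasurable (fun z : H n => ψ z / ww z) volume :=
    (hF.aemeasurable.div continuous_ww.aemeasurable).aestronglyMeasurable
  refine memLp_of_rpow_le hq hm hw fun z => ?_
  have h0 := ww_pos z
  have h1 : ‖ψ z / ww z‖ ≤ C * ww z ^ (-((n : ℝ) / 2 + 1)) := by
    rw [norm_div, Real.norm_of_nonneg h0.le, Real.norm_eq_abs, div_le_iff₀ h0]
    refine (h z).trans (le_of_eq ?_)
    rw [mul_assoc]
    congr 1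
    unfold u0
    nth_rw 3 [← Real.rpow_one (ww z)]
    rw [← Real.rpow_add h0]
    congr 1
    ring
  refine (Real.rpow_le_rpow (norm_nonneg _) h1 hq.le).trans (le_of_eq ?_)
  rw [Real.mul_rpow hC.le (Real.rpow_nonneg h0.le _), ← Real.rpow_mul h0.le]
  congr 2
  unfold qc
  field_simp

/-- The weak equation passes from test functions to `Cl 2`. -/
lemma weak_limit (hWIN : T_WIN) (hn : 1 ≤ n) {f : H n → ℝ} {g : H n → G n} (hfg : Cl 2 f g)
    {F : H n → G n} (hF : MemLp F (ENNReal.ofReal 2)) {ψ : H n → ℝ}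
    (hψ : AEStronglyMeasurable ψ volume) {C : ℝ} (hC : 0 < C) (hb : ∀ z, |ψ z| ≤ C * u0 n z)
    (hT : ∀ φ : H n → ℝ, Tst φ → MemLp φ (ENNReal.ofReal (ps n 2)) →
      MemLp (hg φ) (ENNReal.ofReal 2) →
      ∫ z, inner ℝ (hg φ z) (F z) = ∫ z, φ z * (ψ z / ww z))
    (hM : ∀ φ : H n → ℝ, Tst φ → MemLp φ (ENNReal.ofReal (ps n 2)) ∧
      MemLp (hg φ) (ENNReal.ofReal 2)) :
    Integrable (fun z => f z / ww z * ψ z) ∧
      ∫ z, inner ℝ (g z) (F z) = ∫ z, f z / ww z * ψ z := by
  obtain ⟨hf, hg', φ, hφ, h1, h2⟩ := hfg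
  have hψ' := memLp_qc hWIN hn hψ hC hb
  have hc := conj_qc hn
  have hre : ∀ (a b : ℝ), inner ℝ a b = a * b := fun a b => by simp [mul_comm]
  have e1 : ∀ h : H n → ℝ, (fun z => inner ℝ (h z) (ψ z / ww z)) =
      fun z => h z / ww z * ψ z := by
    intro h; funext z; rw [hre]; ring
  constructor
  · have := integrable_inner_of_memLp hc hf hψ'
    rwa [e1] at this
  · have l1 := tendsto_integral_inner hc (fun k => (hM (φ k) (hφ k)).1) hf hψ' (by
      simpa [ms] using h1)
    have h22 : Real.HolderConjugate 2 2 := Real.HolderConjugate.two_two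
    have l2 := tendsto_integral_inner h22 (fun k => (hM (φ k) (hφ k)).2) hg' hF (by
      simpa [en] using h2)
    have e2 : (fun k => ∫ z, inner ℝ (φ k z) (ψ z / ww z)) =
        fun k => ∫ z, inner ℝ (hg (φ k) z) (F z) := by
      funext k
      rw [hT (φ k) (hφ k) (hM (φ k) (hφ k)).1 (hM (φ k) (hφ k)).2]
      exact integral_congr_ae (ae_of_all _ fun z => hre _ _)
    rw [e2] at l1
    have := tendsto_nhds_unique l2 l1
    rw [this]
    exact integral_congr_ae (ae_of_all _ fun z => congrFun (e1 f) z)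

lemma tst_memLp (hHGC : T_HGC) (_hn : 1 ≤ n) {φ : H n → ℝ} (hφ : Tst φ) :
    MemLp φ (ENNReal.ofReal (ps n 2)) ∧ MemLp (hg φ) (ENNReal.ofReal 2) :=
  ⟨hφ.1.continuous.memLp_of_hasCompactSupport hφ.2,
    (((hHGC n φ).1 (hφ.1.of_le (by simp)))).memLp_of_hasCompactSupport ((hHGC n φ).2.2.2 hφ.2)⟩

/-- Integration by parts against the monomials. -/
lemma ibp_mono (hCAL : T_CAL) (hIBP : T_IBP) (hn : 1 ≤ n) {α β : Fin n → ℕ} {a b : ℕ}
    (hα : (∑ j, α j) ≤ a) (hβ : (∑ j, β j) ≤ b) {φ : H n → ℝ} (hφ : Tst φ) :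
    Continuous (LL α β a b : H n → ℂ) ∧
    ∫ z, inner ℝ (hg φ z) (hg (fun y => (EE α β a b y).re) z) =
      ∫ z, φ z * ((LL α β a b z).re / ww z) ∧
    ∫ z, inner ℝ (hg φ z) (hg (fun y => (EE α β a b y).im) z) =
      ∫ z, φ z * ((LL α β a b z).im / ww z) := by
  obtain ⟨hsm, hcal⟩ := hCAL n hn α β a b hα hβ
  have hX := fun j => contDiff_X hsm j
  have hY := fun j => contDiff_Y hsm j
  have hXX := fun j => contDiff_X (hX j) j
  have hYY := fun j => contDiff_Y (hY j) j
  have hdf : ∀ z, DifferentiableAt ℝ (EE α β a b) z := fun z =>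
    (hsm.differentiable (by simp)).differentiableAt
  have cww : Continuous fun z : H n => (ww z : ℂ) := Complex.continuous_ofReal.comp continuous_ww
  have hLc : Continuous (LL α β a b : H n → ℂ) := by
    have e : (LL α β a b : H n → ℂ) = fun z =>
        - (∑ j, (X (fun y => X (EE α β a b) j y) j z + Y (fun y => Y (EE α β a b) j y) j z)) *
          (ww z : ℂ) := by
      funext z; exact (hcal z).symm
    rw [e]
    refine Continuous.mul (Continuous.neg (continuous_finsetSum _ fun j _ => ?_)) cww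
    exact (hXX j).continuous.add (hYY j).continuous
  have cX : ∀ j, Continuous fun z => ((X φ j z : ℝ) : ℂ) := fun j =>
    Complex.continuous_ofReal.comp (contDiff_X hφ.1 j).continuous
  have cY : ∀ j, Continuous fun z => ((Y φ j z : ℝ) : ℂ) := fun j =>
    Complex.continuous_ofReal.comp (contDiff_Y hφ.1 j).continuous
  have sX : ∀ j, HasCompactSupport fun z => ((X φ j z : ℝ) : ℂ) := fun j =>
    (cs_X hφ.2 j).comp_left Complex.ofReal_zero
  have sY : ∀ j, HasCompactSupport fun z => ((Y φ j z : ℝ) : ℂ) := fun j =>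
    (cs_Y hφ.2 j).comp_left Complex.ofReal_zero
  have cφ : Continuous fun z => ((φ z : ℝ) : ℂ) :=
    Complex.continuous_ofReal.comp hφ.1.continuous
  have sφ : HasCompactSupport fun z => ((φ z : ℝ) : ℂ) := hφ.2.comp_left Complex.ofReal_zero
  have iX : ∀ j, Integrable fun z => ((X φ j z : ℝ) : ℂ) * X (EE α β a b) j z := fun j =>
    ((cX j).mul (hX j).continuous).integrable_of_hasCompactSupport ((sX j).mul_right)
  have iY : ∀ j, Integrable fun z => ((Y φ j z : ℝ) : ℂ) * Y (EE α β a b) j z := fun j =>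
    ((cY j).mul (hY j).continuous).integrable_of_hasCompactSupport ((sY j).mul_right)
  have iXX : ∀ j, Integrable fun z => ((φ z : ℝ) : ℂ) * X (fun y => X (EE α β a b) j y) j z :=
    fun j => (cφ.mul (hXX j).continuous).integrable_of_hasCompactSupport (sφ.mul_right)
  have iYY : ∀ j, Integrable fun z => ((φ z : ℝ) : ℂ) * Y (fun y => Y (EE α β a b) j y) j z :=
    fun j => (cφ.mul (hYY j).continuous).integrable_of_hasCompactSupport (sφ.mul_right)
  have wne : ∀ z : H n, (ww z : ℂ) ≠ 0 := fun z => by exact_mod_cast (ww_pos z).ne'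
  have iL : Integrable fun z => ((φ z : ℝ) : ℂ) * (LL α β a b z / (ww z : ℂ)) :=
    (cφ.mul (hLc.div cww wne)).integrable_of_hasCompactSupport (sφ.mul_right)
  have iXY : ∀ j, Integrable fun z => ((X φ j z : ℝ) : ℂ) * X (EE α β a b) j z +
      ((Y φ j z : ℝ) : ℂ) * Y (EE α β a b) j z := fun j => (iX j).add (iY j)
  have iXX' : ∀ j, Integrable fun z =>
      -(((φ z : ℝ) : ℂ) * X (fun y => X (EE α β a b) j y) j z) := fun j => (iXX j).neg
  have iYY' : ∀ j, Integrable fun z =>
      -(((φ z : ℝ) : ℂ) * Y (fun y => Y (EE α β a b) j y) j z) := fun j => (iYY j).neg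
  have iXY' : ∀ j, Integrable fun z =>
      -(((φ z : ℝ) : ℂ) * X (fun y => X (EE α β a b) j y) j z) +
      -(((φ z : ℝ) : ℂ) * Y (fun y => Y (EE α β a b) j y) j z) :=
    fun j => (iXX' j).add (iYY' j)
  have iD : Integrable fun z => ∑ j, (((X φ j z : ℝ) : ℂ) * X (EE α β a b) j z +
      ((Y φ j z : ℝ) : ℂ) * Y (EE α β a b) j z) :=
    integrable_finsetSum _ fun j _ => iXY j
  have key : ∫ z, (∑ j, (((X φ j z : ℝ) : ℂ) * X (EE α β a b) j z +
      ((Y φ j z : ℝ) : ℂ) * Y (EE α β a b) j z)) =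
      ∫ z, ((φ z : ℝ) : ℂ) * (LL α β a b z / (ww z : ℂ)) := by
    rw [integral_finsetSum _ fun j _ => iXY j]
    have e : ∀ z : H n, ((φ z : ℝ) : ℂ) * (LL α β a b z / (ww z : ℂ)) =
        ∑ j, (-(((φ z : ℝ) : ℂ) * X (fun y => X (EE α β a b) j y) j z) +
          -(((φ z : ℝ) : ℂ) * Y (fun y => Y (EE α β a b) j y) j z)) := by
      intro z
      have h := hcal z
      rw [← h, mul_div_assoc, div_self (wne z), mul_one, mul_neg, Finset.mul_sum,
        ← Finset.sum_neg_distrib]
      refine Finset.sum_congr rfl fun j _ => ?_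
      ring
    rw [integral_congr_ae (ae_of_all _ e), integral_finsetSum _ fun j _ => iXY' j]
    refine Finset.sum_congr rfl fun j _ => ?_
    rw [integral_add (iX j) (iY j), integral_add (iXX' j) (iYY' j), integral_neg,
      integral_neg]
    rw [(hIBP n φ _ j hφ ((hX j).of_le (by simp))).1, (hIBP n φ _ j hφ ((hY j).of_le (by simp))).2]
  refine ⟨hLc, ?_, ?_⟩
  · have h1 := congrArg Complex.re key
    have e1 := Complex.reCLM.integral_comp_comm iD
    have e2 := Complex.reCLM.integral_comp_comm iL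
    simp only [Complex.reCLM_apply] at e1 e2
    rw [← e1, ← e2] at h1
    calc ∫ z, inner ℝ (hg φ z) (hg (fun y => (EE α β a b y).re) z)
        = ∫ z, (∑ j, (((X φ j z : ℝ) : ℂ) * X (EE α β a b) j z +
            ((Y φ j z : ℝ) : ℂ) * Y (EE α β a b) j z)).re := by
          refine integral_congr_ae (ae_of_all _ fun z => ?_)
          simp only []
          rw [inner_hg, Complex.re_sum]
          refine Finset.sum_congr rfl fun j _ => ?_
          rw [X_re (hdf z), Y_re (hdf z), Complex.add_re, Complex.re_ofReal_mul,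
            Complex.re_ofReal_mul]
      _ = _ := h1
      _ = _ := by
          refine integral_congr_ae (ae_of_all _ fun z => ?_)
          simp only []
          rw [Complex.re_ofReal_mul, Complex.div_ofReal_re]
  · have h1 := congrArg Complex.im key
    have e1 := Complex.imCLM.integral_comp_comm iD
    have e2 := Complex.imCLM.integral_comp_comm iL
    simp only [Complex.imCLM_apply] at e1 e2
    rw [← e1, ← e2] at h1
    calc ∫ z, inner ℝ (hg φ z) (hg (fun y => (EE α β a b y).im) z)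
        = ∫ z, (∑ j, (((X φ j z : ℝ) : ℂ) * X (EE α β a b) j z +
            ((Y φ j z : ℝ) : ℂ) * Y (EE α β a b) j z)).im := by
          refine integral_congr_ae (ae_of_all _ fun z => ?_)
          simp only []
          rw [inner_hg, Complex.im_sum]
          refine Finset.sum_congr rfl fun j _ => ?_
          rw [X_im (hdf z), Y_im (hdf z), Complex.add_im, Complex.im_ofReal_mul,
            Complex.im_ofReal_mul]
      _ = _ := h1
      _ = _ := by
          refine integral_congr_ae (ae_of_all _ fun z => ?_)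
          simp only []
          rw [Complex.im_ofReal_mul, Complex.div_ofReal_im]

theorem pf_WKE (hCAL : T_CAL) (hBND : T_BND) (hWIN : T_WIN) (hIBP : T_IBP) (hHGC : T_HGC)
    (_hHGA : T_HGA) : T_WKE := by
  intro n hn α β a b hα hβ f g hfg
  obtain ⟨hsm, -⟩ := hCAL n hn α β a b hα hβ
  obtain ⟨C, hC, hb⟩ := hBND n hn α β a b hα hβ
  have hdf : ∀ z, DifferentiableAt ℝ (EE α β a b) z := fun z =>
    (hsm.differentiable (by simp)).differentiableAt
  have hre : ContDiff ℝ ∞ fun z => (EE α β a b z).re := Complex.reCLM.contDiff.comp hsm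
  have him : ContDiff ℝ ∞ fun z => (EE α β a b z).im := Complex.imCLM.contDiff.comp hsm
  have hLc : Continuous (LL α β a b : H n → ℂ) := by
    have h0 : Tst (fun _ : H n => (0 : ℝ)) := ⟨contDiff_const, HasCompactSupport.zero⟩
    exact (ibp_mono hCAL hIBP hn hα hβ h0).1
  have m1 := memLp_two_of_le hWIN hn
    (((hHGC n _).1 (hre.of_le (by simp))).aestronglyMeasurable) fun z =>
    (norm_hg_re_sq_le (hdf z)).trans (hb z).2.2
  have m2 := memLp_two_of_le hWIN hn
    (((hHGC n _).1 (him.of_le (by simp))).aestronglyMeasurable) fun z =>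
    (norm_hg_im_sq_le (hdf z)).trans (hb z).2.2
  obtain ⟨r1, r2⟩ := weak_limit hWIN hn hfg m1
    (Complex.continuous_re.comp hLc).aestronglyMeasurable hC
    (fun z => (Complex.abs_re_le_norm _).trans (hb z).2.1)
    (fun φ hφ _ _ => (ibp_mono hCAL hIBP hn hα hβ hφ).2.1) fun φ hφ => tst_memLp hHGC hn hφ
  obtain ⟨s1, s2⟩ := weak_limit hWIN hn hfg m2
    (Complex.continuous_im.comp hLc).aestronglyMeasurable hC
    (fun z => (Complex.abs_im_le_norm _).trans (hb z).2.1)
    (fun φ hφ _ _ => (ibp_mono hCAL hIBP hn hα hβ hφ).2.2) fun φ hφ => tst_memLp hHGC hn hφ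
  refine ⟨r1, s1, ?_, r2, s2⟩
  have h1 := integrable_inner_of_memLp (conj_qc hn) hfg.1
    (memLp_qc hWIN hn continuous_u0.aestronglyMeasurable one_pos
      (fun z => by rw [abs_of_pos (u0_pos z), one_mul]))
  refine h1.congr (ae_of_all _ fun z => ?_)
  simp only [RCLike.inner_apply, conj_trivial]
  ring

end Pool.Agent.H91.HBE
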