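import Pool.Agent.H91.HBE.WKE
import Pool.Agent.H1.HB.LPN

/-!
# Row GSI of `hbe_modules`
-/

set_option autoImplicit false

namespace Pool.Agent.H91.HBE
open MeasureTheory Set Filter Topology Pool.Agent.H80.HS Pool.Agent.H93.HQ Pool.Agent.H27.HB
open scoped ContDiff ENNReal

variable {n : ℕ}

lemma cl_tst (hHGC : T_HGC) (hn : 1 ≤ n) {φ : H n → ℝ} (hφ : Tst φ) : Cl 2 φ (hg φ) := by
  obtain ⟨h1, h2⟩ := tst_memLp hHGC hn hφ
  refine ⟨h1, h2, fun _ => φ, fun _ => hφ, ?_, ?_⟩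
  · have : (fun _ : ℕ => ms (ps n 2) (fun z => φ z - φ z)) = fun _ => 0 := by
      funext _
      unfold ms
      simp [Real.zero_rpow (ps_two_pos hn).ne']
    rw [this]
    exact tendsto_const_nhds
  · have : (fun _ : ℕ => en 2 (fun z => hg φ z - hg φ z)) = fun _ => 0 := by
      funext _
      unfold en
      simp
    rw [this]
    exact tendsto_const_nhds

lemma EE_zero (z : H n) : EE (0 : Fin n → ℕ) 0 0 0 z = (u0 n z : ℂ) := by
  simp [EE]

lemma LL_zero (z : H n) : LL (0 : Fin n → ℕ) 0 0 0 z = (4 * (n : ℂ) ^ 2) * (u0 n z : ℂ) := by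
  unfold LL
  rw [EE_zero]
  simp
  left
  ring

/-- The ground state inequality for test functions. -/
lemma gsi_tst (hWKE : T_WKE) (hHGA : T_HGA) (hHGC : T_HGC) (hn : 1 ≤ n) {φ : H n → ℝ}
    (hφ : Tst φ) : 4 * (n : ℝ) ^ 2 * ∫ z, φ z ^ 2 / ww z ≤ en 2 (hg φ) := by
  set h : H n → ℝ := fun z => φ z / u0 n z with hh
  have hu : ContDiff ℝ ∞ (u0 n) := contDiff_u0
  have hhc : ContDiff ℝ ∞ h := hφ.1.div hu fun z => (u0_pos z).ne'
  set ψ : H n → ℝ := fun z => φ z * h z with hψd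
  have hψ : Tst ψ := ⟨hφ.1.mul hhc, hφ.2.mul_right⟩
  have dφ : ∀ z, DifferentiableAt ℝ φ z := fun z =>
    (hφ.1.differentiable (by simp)).differentiableAt
  have dh : ∀ z, DifferentiableAt ℝ h z := fun z =>
    (hhc.differentiable (by simp)).differentiableAt
  have du : ∀ z, DifferentiableAt ℝ (u0 n) z := fun z =>
    (hu.differentiable (by simp)).differentiableAt
  obtain ⟨i1, -, -, e1, -⟩ := hWKE n hn 0 0 0 0 (by simp) (by simp) ψ (hg ψ) (cl_tst hHGC hn hψ)
  have f1 : (fun y : H n => (EE (0 : Fin n → ℕ) 0 0 0 y).re) = u0 n := by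
    funext y; rw [EE_zero]; simp
  have f2 : ∀ z : H n, ψ z / ww z * (LL (0 : Fin n → ℕ) 0 0 0 z).re =
      4 * (n : ℝ) ^ 2 * (φ z ^ 2 / ww z) := by
    intro z
    have h0 := (u0_pos z).ne'
    rw [LL_zero]
    have : ((4 * (n : ℂ) ^ 2) * (u0 n z : ℂ)).re = 4 * (n : ℝ) ^ 2 * u0 n z := by
      have : ((4 * (n : ℂ) ^ 2) * (u0 n z : ℂ)) = ((4 * (n : ℝ) ^ 2 * u0 n z : ℝ) : ℂ) := by
        push_cast; ring
      rw [this, Complex.ofReal_re]
    rw [this, hψd, hh]
    field_simp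
  rw [f1, integral_congr_ae (ae_of_all _ f2), integral_const_mul] at e1
  rw [← e1]
  unfold en
  have hpt : ∀ z, inner ℝ (hg ψ z) (hg (u0 n) z) ≤ ‖hg φ z‖ ^ (2 : ℝ) := by
    intro z
    have g1 : hg φ z = u0 n z • hg h z + h z • hg (u0 n) z := by
      have := (hHGA n (u0 n) h z (du z) (dh z)).2.1
      rw [← this]
      congr 1
      funext x
      rw [hh]
      field_simp [(u0_pos x).ne']
    have g2 : hg ψ z = φ z • hg h z + h z • hg φ z :=
      (hHGA n φ h z (dφ z) (dh z)).2.1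
    have g3 : φ z = u0 n z * h z := by
      rw [hh]; field_simp [(u0_pos z).ne']
    rw [Real.rpow_two, g2, inner_add_left, inner_smul_left, inner_smul_left, g1]
    rw [inner_add_left, inner_smul_left, inner_smul_left, norm_add_sq_real, norm_smul, norm_smul,
      inner_smul_left, inner_smul_right, real_inner_self_eq_norm_sq]
    simp only [conj_trivial, Real.norm_eq_abs, mul_pow, sq_abs]
    rw [g3]
    nlinarith [mul_nonneg (sq_nonneg (u0 n z)) (sq_nonneg (‖hg h z‖))]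
  refine integral_mono ?_ ?_ hpt
  · have c1 : Continuous (hg ψ) := (hHGC n ψ).1 (hψ.1.of_le (by simp))
    have c2 : Continuous (hg (u0 n)) := (hHGC n (u0 n)).1 (hu.of_le (by simp))
    refine (c1.inner c2).integrable_of_hasCompactSupport ?_
    refine ((hHGC n ψ).2.2.2 hψ.2).mono fun z hz h0 => hz ?_
    show inner ℝ (hg ψ z) (hg (u0 n) z) = 0
    rw [h0, inner_zero_left]
  · have h1 := (tst_memLp hHGC hn hφ).2
    have := h1.integrable_norm_rpow (by simp) ENNReal.ofReal_ne_top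
    rwa [ENNReal.toReal_ofReal zero_le_two] at this

/-- Multiplication by `w^(-1/2)` maps `L^(2*)` to `L^2`. -/
lemma weight (hWIN : T_WIN) (hn : 1 ≤ n) : ∃ B : ℝ, ∀ h : H n → ℝ,
    MemLp h (ENNReal.ofReal (ps n 2)) →
    MemLp (fun z => h z * ww z ^ (-(1 / 2) : ℝ)) (ENNReal.ofReal 2) ∧
    ∫ z, ‖h z * ww z ^ (-(1 / 2) : ℝ)‖ ^ (2 : ℝ) ≤ ms (ps n 2) h ^ (n / ((n : ℝ) + 1)) * B := by
  have hn0 : (0 : ℝ) < n := by exact_mod_cast hn
  have hc : (((n : ℝ) + 1) / n).HolderConjugate ((n : ℝ) + 1) := by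
    rw [Real.holderConjugate_iff]
    constructor
    · rw [lt_div_iff₀ hn0]; linarith
    · field_simp
  have hw : MemLp (fun z : H n => (ww z)⁻¹) (ENNReal.ofReal ((n : ℝ) + 1)) := by
    refine memLp_of_rpow_le (by positivity)
      (continuous_ww.inv₀ fun z => (ww_pos z).ne').aestronglyMeasurable
      (hWIN n ((n : ℝ) + 1) (by linarith)) fun z => le_of_eq ?_
    rw [Real.norm_of_nonneg (inv_nonneg.2 (ww_pos z).le), Real.inv_rpow (ww_pos z).le,
      Real.rpow_neg (ww_pos z).le]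
  refine ⟨(∫ z : H n, ‖(ww z)⁻¹‖ ^ ((n : ℝ) + 1)) ^ (1 / ((n : ℝ) + 1)), fun h hh => ?_⟩
  have hq := ps_two_pos hn
  have e0 : ∀ z, ‖h z ^ 2‖ ^ (((n : ℝ) + 1) / n) = |h z| ^ ps n 2 := by
    intro z
    rw [norm_pow, Real.norm_eq_abs, ← Real.rpow_two, ← Real.rpow_mul (abs_nonneg _)]
    congr 1
    rw [ps_two hn]
    field_simp
  have h2 : MemLp (fun z => h z ^ 2) (ENNReal.ofReal (((n : ℝ) + 1) / n)) := by
    have h1 := hh.integrable_norm_rpow (by simpa using hq) ENNReal.ofReal_ne_top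
    rw [ENNReal.toReal_ofReal hq.le] at h1
    exact memLp_of_rpow_le (by positivity) (hh.1.pow 2) h1 fun z => (e0 z).le
  have e1 : ∀ z, ‖h z * ww z ^ (-(1 / 2) : ℝ)‖ ^ (2 : ℝ) = ‖h z ^ 2‖ * ‖(ww z)⁻¹‖ := by
    intro z
    have h0 := ww_pos z
    rw [norm_mul, Real.rpow_two, mul_pow, norm_pow]
    congr 1
    rw [← norm_pow, ← Real.rpow_two, ← Real.rpow_mul h0.le]
    congr 1
    rw [← Real.rpow_neg_one]
    congr 1
    ring
  have hI : Integrable fun z => ‖h z ^ 2‖ * ‖(ww z)⁻¹‖ := by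
    have := hc.ennrealOfReal
    exact MemLp.integrable_mul h2.norm hw.norm
  constructor
  · refine memLp_of_rpow_le two_pos ?_ hI fun z => (e1 z).le
    exact (hh.1.aemeasurable.mul (continuous_ww_rpow _).aemeasurable).aestronglyMeasurable
  · rw [integral_congr_ae (ae_of_all _ e1)]
    refine (integral_mul_norm_le_Lp_mul_Lq hc h2 hw).trans (le_of_eq ?_)
    congr 1
    unfold ms
    rw [integral_congr_ae (ae_of_all _ e0)]
    congr 1
    field_simp

theorem pf_GSI (hWKE : T_WKE) (_hIBP : T_IBP) (hHGA : T_HGA) (hHGC : T_HGC) (hWIN : T_WIN)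
    (_hMEM : T_MEM) (_hBND : T_BND) : T_GSI := by
  intro n hn f g hfg
  have hn0 : (0 : ℝ) < n := by exact_mod_cast hn
  obtain ⟨hf, hg', φ, hφ, h1, h2⟩ := hfg
  obtain ⟨B, hB⟩ := weight hWIN hn
  have hLPN := Pool.Agent.H1.HB.pf_LPN
  have ew : ∀ (h : H n → ℝ) (z : H n), ‖h z * ww z ^ (-(1 / 2) : ℝ)‖ ^ (2 : ℝ) =
      h z ^ 2 / ww z := by
    intro h z
    have h0 := ww_pos z
    have e : (ww z ^ (-(1 / 2) : ℝ)) ^ 2 = (ww z)⁻¹ := by
      rw [← Real.rpow_two, ← Real.rpow_mul h0.le]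
      have : (-(1 / 2) : ℝ) * 2 = -1 := by norm_num
      rw [this, Real.rpow_neg_one]
    rw [Real.rpow_two, Real.norm_eq_abs, sq_abs, mul_pow, e, div_eq_mul_inv]
  have hI : Integrable fun z => f z ^ 2 / ww z := by
    have h3 := (hB f hf).1.integrable_norm_rpow (by simp) ENNReal.ofReal_ne_top
    rw [ENNReal.toReal_ofReal zero_le_two] at h3
    exact h3.congr (ae_of_all _ fun z => ew f z)
  refine ⟨hI, ?_⟩
  have hmk : ∀ k, MemLp (fun z => φ k z * ww z ^ (-(1 / 2) : ℝ)) (ENNReal.ofReal 2) := fun k =>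
    (hB (φ k) (tst_memLp hHGC hn (hφ k)).1).1
  have ht : Tendsto (fun k => ∫ z, ‖φ k z * ww z ^ (-(1 / 2) : ℝ) -
      f z * ww z ^ (-(1 / 2) : ℝ)‖ ^ (2 : ℝ)) atTop (𝓝 0) := by
    have hlim : Tendsto (fun k => ms (ps n 2) (fun z => φ k z - f z) ^ (n / ((n : ℝ) + 1)) * B)
        atTop (𝓝 0) := by
      have h3 := (h1.rpow_const (p := n / ((n : ℝ) + 1)) (Or.inr (by positivity))).mul_const B
      rwa [Real.zero_rpow (by positivity), zero_mul] at h3
    refine squeeze_zero (fun _ => integral_nonneg fun _ => Real.rpow_nonneg (norm_nonneg _) _)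
      (fun k => ?_) hlim
    have h3 := (hB (fun z => φ k z - f z) ((tst_memLp hHGC hn (hφ k)).1.sub hf)).2
    refine le_trans (le_of_eq ?_) h3
    refine integral_congr_ae (ae_of_all _ fun z => ?_)
    simp only []
    rw [sub_mul]
  have l1 := hLPN n ℝ 2 (fun k z => φ k z * ww z ^ (-(1 / 2) : ℝ))
    (fun z => f z * ww z ^ (-(1 / 2) : ℝ)) one_le_two hmk (hB f hf).1 ht
  have l2 := hLPN n (G n) 2 (fun k => hg (φ k)) g one_le_two
    (fun k => (tst_memLp hHGC hn (hφ k)).2) hg' (by simpa [en] using h2)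
  have l3 := l1.const_mul (4 * (n : ℝ) ^ 2)
  have hle := le_of_tendsto_of_tendsto' l3 l2 fun k => by
    have h3 := gsi_tst hWKE hHGA hHGC hn (hφ k)
    unfold en at h3
    refine le_trans (le_of_eq ?_) h3
    congr 1
    exact integral_congr_ae (ae_of_all _ fun z => ew (φ k) z)
  rw [integral_congr_ae (ae_of_all _ fun z => ew f z)] at hle
  exact hle

end Pool.Agent.H91.HBE
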