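import Pool.Agent.H27.HB.TA
import Pool.Agent.H27.HB.TF

/-!
# Tools for the rows MEM, WKE, GSI, SV2
-/

set_option autoImplicit false

namespace Pool.Agent.H91.HBE
open MeasureTheory Set Filter Topology Pool.Agent.H80.HS Pool.Agent.H93.HQ Pool.Agent.H27.HB
open scoped ContDiff ENNReal

variable {n : ℕ}

lemma ps_two (hn : 1 ≤ n) : ps n 2 = 2 + 2 / (n : ℝ) := by
  have h : (n : ℝ) ≠ 0 := by positivity
  have h1 : (2 * (n : ℝ) + 2 - 2) = 2 * n := by ring
  unfold ps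
  rw [h1]
  field_simp

lemma ps_two_pos (hn : 1 ≤ n) : 0 < ps n 2 := by
  rw [ps_two hn]; positivity

lemma two_lt_ps_two (hn : 1 ≤ n) : 2 < ps n 2 := by
  rw [ps_two hn]
  have : 0 < 2 / (n : ℝ) := by
    have : 0 < (n : ℝ) := by exact_mod_cast hn
    positivity
  linarith

lemma one_le_ww (z : H n) : 1 ≤ ww z := by
  unfold ww
  nlinarith [sq_nonneg' z, sq_nonneg z.2.2]

lemma ww_pos (z : H n) : 0 < ww z := lt_of_lt_of_le one_pos (one_le_ww z)

lemma u0_pos (z : H n) : 0 < u0 n z := Real.rpow_pos_of_pos (ww_pos z) _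

lemma contDiff_ww : ContDiff ℝ ∞ (ww : H n → ℝ) := by
  unfold ww H93.HQ.sq
  have h1 : ContDiff ℝ ∞ (fun z : H n => ‖z.1‖ ^ 2) := contDiff_fst.norm_sq ℝ
  have h2 : ContDiff ℝ ∞ (fun z : H n => ‖z.2.1‖ ^ 2) := (contDiff_snd.fst).norm_sq ℝ
  have h3 : ContDiff ℝ ∞ (fun z : H n => z.2.2 ^ 2) := (contDiff_snd.snd).pow 2
  exact ((contDiff_const.add (h1.add h2)).pow 2).add h3

lemma continuous_ww : Continuous (ww : H n → ℝ) := contDiff_ww.continuous

lemma contDiff_ww_rpow (s : ℝ) : ContDiff ℝ ∞ (fun z : H n => ww z ^ s) :=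
  contDiff_ww.rpow_const_of_ne fun z => (ww_pos z).ne'

lemma contDiff_u0 : ContDiff ℝ ∞ (u0 n) := contDiff_ww_rpow _

lemma continuous_u0 : Continuous (u0 n) := contDiff_u0.continuous

lemma continuous_ww_rpow (s : ℝ) : Continuous (fun z : H n => ww z ^ s) :=
  (contDiff_ww_rpow s).continuous

lemma norm_hg_sq (u : H n → ℝ) (z : H n) :
    ‖hg u z‖ ^ 2 = ∑ j, (X u j z ^ 2 + Y u j z ^ 2) := by
  rw [EuclideanSpace.norm_sq_eq, Fintype.sum_sum_type, Finset.sum_add_distrib]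
  simp [hg]

lemma inner_hg (u v : H n → ℝ) (z : H n) :
    inner ℝ (hg u z) (hg v z) = ∑ j, (X u j z * X v j z + Y u j z * Y v j z) := by
  rw [PiLp.inner_apply, Fintype.sum_sum_type, Finset.sum_add_distrib]
  simp [hg, mul_comm]

lemma X_re {E : H n → ℂ} {z : H n} (h : DifferentiableAt ℝ E z) (j : Fin n) :
    X (fun y => (E y).re) j z = (X E j z).re := by
  have h1 : HasFDerivAt (fun y => (E y).re) (Complex.reCLM.comp (fderiv ℝ E z)) z :=
    Complex.reCLM.hasFDerivAt.comp z h.hasFDerivAt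
  unfold X
  rw [h1.fderiv]
  rfl

lemma X_im {E : H n → ℂ} {z : H n} (h : DifferentiableAt ℝ E z) (j : Fin n) :
    X (fun y => (E y).im) j z = (X E j z).im := by
  have h1 : HasFDerivAt (fun y => (E y).im) (Complex.imCLM.comp (fderiv ℝ E z)) z :=
    Complex.imCLM.hasFDerivAt.comp z h.hasFDerivAt
  unfold X
  rw [h1.fderiv]
  rfl

lemma Y_re {E : H n → ℂ} {z : H n} (h : DifferentiableAt ℝ E z) (j : Fin n) :
    Y (fun y => (E y).re) j z = (Y E j z).re := by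
  have h1 : HasFDerivAt (fun y => (E y).re) (Complex.reCLM.comp (fderiv ℝ E z)) z :=
    Complex.reCLM.hasFDerivAt.comp z h.hasFDerivAt
  unfold Y
  rw [h1.fderiv]
  rfl

lemma Y_im {E : H n → ℂ} {z : H n} (h : DifferentiableAt ℝ E z) (j : Fin n) :
    Y (fun y => (E y).im) j z = (Y E j z).im := by
  have h1 : HasFDerivAt (fun y => (E y).im) (Complex.imCLM.comp (fderiv ℝ E z)) z :=
    Complex.imCLM.hasFDerivAt.comp z h.hasFDerivAt
  unfold Y
  rw [h1.fderiv]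
  rfl

lemma sq_re_le (w : ℂ) : w.re ^ 2 ≤ ‖w‖ ^ 2 := by
  rw [← sq_abs]; exact pow_le_pow_left₀ (abs_nonneg _) (Complex.abs_re_le_norm w) 2

lemma sq_im_le (w : ℂ) : w.im ^ 2 ≤ ‖w‖ ^ 2 := by
  rw [← sq_abs]; exact pow_le_pow_left₀ (abs_nonneg _) (Complex.abs_im_le_norm w) 2

lemma norm_hg_re_sq_le {E : H n → ℂ} {z : H n} (h : DifferentiableAt ℝ E z) :
    ‖hg (fun y => (E y).re) z‖ ^ 2 ≤ ∑ j, (‖X E j z‖ ^ 2 + ‖Y E j z‖ ^ 2) := by
  rw [norm_hg_sq]
  refine Finset.sum_le_sum fun j _ => ?_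
  rw [X_re h, Y_re h]
  exact add_le_add (sq_re_le _) (sq_re_le _)

lemma norm_hg_im_sq_le {E : H n → ℂ} {z : H n} (h : DifferentiableAt ℝ E z) :
    ‖hg (fun y => (E y).im) z‖ ^ 2 ≤ ∑ j, (‖X E j z‖ ^ 2 + ‖Y E j z‖ ^ 2) := by
  rw [norm_hg_sq]
  refine Finset.sum_le_sum fun j _ => ?_
  rw [X_im h, Y_im h]
  exact add_le_add (sq_im_le _) (sq_im_le _)

lemma memLp_of_rpow_le {E : Type*} [NormedAddCommGroup E] {f : H n → E} {q : ℝ} (hq : 0 < q)
    (hf : AEStronglyMeasurable f volume) {w : H n → ℝ} (hw : Integrable w)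
    (h : ∀ z, ‖f z‖ ^ q ≤ w z) : MemLp f (ENNReal.ofReal q) := by
  rw [← integrable_norm_rpow_iff hf (by simpa using hq) ENNReal.ofReal_ne_top,
    ENNReal.toReal_ofReal hq.le]
  refine hw.mono' ?_ (ae_of_all _ fun z => ?_)
  · exact (hf.norm.aemeasurable.pow_const q).aestronglyMeasurable
  · rw [Real.norm_of_nonneg (Real.rpow_nonneg (norm_nonneg _) _)]
    exact h z

/-- Functions bounded by a multiple of `u0` lie in `L^(2*)`. -/
lemma memLp_of_le_u0 (hWIN : T_WIN) (hn : 1 ≤ n) {F : H n → ℝ}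
    (hF : AEStronglyMeasurable F volume) {C : ℝ} (hC : 0 < C) (h : ∀ z, |F z| ≤ C * u0 n z) :
    MemLp F (ENNReal.ofReal (ps n 2)) := by
  have hn0 : (0 : ℝ) < n := by exact_mod_cast hn
  have hq := ps_two_pos hn
  have hw := (hWIN n ((n : ℝ) + 1) (by linarith)).const_mul (C ^ ps n 2)
  refine memLp_of_rpow_le hq hF hw fun z => ?_
  have h1 : ‖F z‖ ^ ps n 2 ≤ (C * u0 n z) ^ ps n 2 :=
    Real.rpow_le_rpow (norm_nonneg _) (h z) hq.le
  refine h1.trans (le_of_eq ?_)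
  rw [Real.mul_rpow hC.le (u0_pos z).le]
  congr 1
  unfold u0
  rw [← Real.rpow_mul (ww_pos z).le]
  congr 1
  rw [ps_two hn]
  field_simp

/-- Vector fields with the square bound lie in `L^2`. -/
lemma memLp_two_of_le (hWIN : T_WIN) (hn : 1 ≤ n) {E : Type*} [NormedAddCommGroup E]
    {G : H n → E}
    (hG : AEStronglyMeasurable G volume) {C : ℝ}
    (h : ∀ z, ‖G z‖ ^ 2 ≤ C * ww z ^ (-((n : ℝ) + 1 / 2))) :
    MemLp G (ENNReal.ofReal 2) := by
  have hn0 : (0 : ℝ) < n := by exact_mod_cast hn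
  have hw := (hWIN n ((n : ℝ) + 1 / 2) (by linarith)).const_mul C
  refine memLp_of_rpow_le two_pos hG hw fun z => ?_
  rw [Real.rpow_two]
  exact h z

/-- Integrability of inner products. -/
lemma integrable_inner_of_memLp {E : Type*} [NormedAddCommGroup E] [InnerProductSpace ℝ E]
    {p q : ℝ} (hpq : p.HolderConjugate q) {g ψ : H n → E}
    (hg : MemLp g (ENNReal.ofReal p)) (hψ : MemLp ψ (ENNReal.ofReal q)) :
    Integrable (fun z => inner ℝ (g z) (ψ z)) := by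
  haveI := hpq.ennrealOfReal
  have h1 : Integrable (fun z => ‖g z‖ * ‖ψ z‖) := MemLp.integrable_mul hg.norm hψ.norm
  exact h1.mono' (hg.1.inner hψ.1) (ae_of_all _ fun z => norm_inner_le_norm _ _)

/-- Convergence of integrals of inner products. -/
lemma tendsto_integral_inner {E : Type*} [NormedAddCommGroup E] [InnerProductSpace ℝ E]
    {p q : ℝ} (hpq : p.HolderConjugate q) {f : ℕ → H n → E} {g ψ : H n → E}
    (hf : ∀ k, MemLp (f k) (ENNReal.ofReal p)) (hg : MemLp g (ENNReal.ofReal p))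
    (hψ : MemLp ψ (ENNReal.ofReal q))
    (ht : Tendsto (fun k => ∫ z, ‖f k z - g z‖ ^ p) atTop (𝓝 0)) :
    Tendsto (fun k => ∫ z, inner ℝ (f k z) (ψ z)) atTop (𝓝 (∫ z, inner ℝ (g z) (ψ z))) := by
  have hp0 : 0 < p := hpq.pos
  rw [tendsto_iff_norm_sub_tendsto_zero]
  have hlim : Tendsto (fun k => (∫ z, ‖f k z - g z‖ ^ p) ^ (1 / p) *
      (∫ z, ‖ψ z‖ ^ q) ^ (1 / q)) atTop (𝓝 0) := by
    have h1 := (ht.rpow_const (p := 1 / p) (Or.inr (by positivity))).mul_const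
      ((∫ z, ‖ψ z‖ ^ q) ^ (1 / q))
    rwa [Real.zero_rpow (by positivity), zero_mul] at h1
  refine squeeze_zero (fun _ => norm_nonneg _) (fun k => ?_) hlim
  rw [← integral_sub (integrable_inner_of_memLp hpq (hf k) hψ)
    (integrable_inner_of_memLp hpq hg hψ)]
  refine (norm_integral_le_integral_norm _).trans ?_
  refine le_trans ?_ (integral_mul_norm_le_Lp_mul_Lq hpq ((hf k).sub hg) hψ)
  haveI := hpq.ennrealOfReal
  refine integral_mono_of_nonneg (ae_of_all _ fun _ => norm_nonneg _)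
    (MemLp.integrable_mul ((hf k).sub hg).norm hψ.norm) (ae_of_all _ fun z => ?_)
  simp only [Pi.sub_apply]
  rw [← inner_sub_left]
  exact norm_inner_le_norm _ _

lemma contDiff_coord (j : Fin n) : ContDiff ℝ ∞ (fun y : H n => y.1 j) :=
  (EuclideanSpace.proj j : V n →L[ℝ] ℝ).contDiff.comp contDiff_fst

lemma contDiff_coord' (j : Fin n) : ContDiff ℝ ∞ (fun y : H n => y.2.1 j) :=
  (EuclideanSpace.proj j : V n →L[ℝ] ℝ).contDiff.comp contDiff_snd.fst

lemma contDiff_X {F : Type*} [NormedAddCommGroup F] [NormedSpace ℝ F] {E : H n → F}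
    (h : ContDiff ℝ ∞ E) (j : Fin n) : ContDiff ℝ ∞ (fun y => X E j y) := by
  unfold X
  exact (h.fderiv_right (m := ∞) (by simp)).clm_apply
    (contDiff_const.prodMk (contDiff_const.prodMk (contDiff_const.mul (contDiff_coord' j))))

lemma contDiff_Y {F : Type*} [NormedAddCommGroup F] [NormedSpace ℝ F] {E : H n → F}
    (h : ContDiff ℝ ∞ E) (j : Fin n) : ContDiff ℝ ∞ (fun y => Y E j y) := by
  unfold Y
  exact (h.fderiv_right (m := ∞) (by simp)).clm_apply
    (contDiff_const.prodMk (contDiff_const.prodMk (contDiff_const.mul (contDiff_coord j))))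

lemma cs_X {φ : H n → ℝ} (h : HasCompactSupport φ) (j : Fin n) :
    HasCompactSupport (fun z => X φ j z) :=
  (h.fderiv (𝕜 := ℝ)).mono fun z hz h0 => hz (by simp [X, h0])

lemma cs_Y {φ : H n → ℝ} (h : HasCompactSupport φ) (j : Fin n) :
    HasCompactSupport (fun z => Y φ j z) :=
  (h.fderiv (𝕜 := ℝ)).mono fun z hz h0 => hz (by simp [Y, h0])

end Pool.Agent.H91.HBE
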